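import Mathlib
import Pool.Agent.Helper55.BQ.A1
import Pool.Agent.Helper51.BQ.A2

/-!
# Project BQ, block A: parity of valuations and quadratic characters of rational numbers
(typed statements; proofs are supplied by the helper files)
-/

namespace Pool.Agent.Helper69.BQ

variable {p : ℕ}

/-! A1: valuations -/

alias vv_mul := Pool.Agent.Helper55.BQ.vv_mul

alias vv_sq := Pool.Agent.Helper55.BQ.vv_sq

alias vv_neg := Pool.Agent.Helper55.BQ.vv_neg

alias vv_self := Pool.Agent.Helper55.BQ.vv_self

alias vv_of_not_dvd := Pool.Agent.Helper55.BQ.vv_of_not_dvd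

alias vv_of_dvd := Pool.Agent.Helper55.BQ.vv_of_dvd

/-- Two rational numbers with the same sign and the same parities of all valuations differ by a
square. -/
alias eq_mul_sq := Pool.Agent.Helper55.BQ.eq_mul_sq

/-! A2: characters -/

alias xx_mul := Pool.Agent.Helper51.BQ.xx_mul

alias xx_sq := Pool.Agent.Helper51.BQ.xx_sq

alias xx_self := Pool.Agent.Helper51.BQ.xx_self

alias xx_neg_one := Pool.Agent.Helper51.BQ.xx_neg_one

/-- The value at an integer prime to `p`. -/
alias xx_int := Pool.Agent.Helper51.BQ.xx_int

end Pool.Agent.Helper69.BQ
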