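import Mathlib
import Pool.Agent.Helper7.BQ.M1
import Pool.Agent.Helper93.BQ.M6
import Pool.Agent.Helper2.BQ.M7
import Pool.Agent.Helper74.BQ.M9

/-!
# Project BQ, block M: bit masks, primes, quadratic residues
(typed statements; proofs are supplied by the helper files)
-/

namespace Pool.Agent.Helper69.BQ

open Cert

/-- M1. -/
alias dot_xor := Pool.Agent.Helper7.BQ.dot_xor

/-- M2. The value of a functional on a selected `xor`. -/
alias dot_xorSel := Pool.Agent.Helper7.BQ.dot_xorSel

/-- M3. The same for pairs: if all the listed conditions hold, so does every selected one. -/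
alias dot_xorSel2 := Pool.Agent.Helper7.BQ.dot_xorSel2

/-- M4. The pairing of two masks. -/
alias dot_bitz := Pool.Agent.Helper7.BQ.dot_bitz

/-- M5. Bits of `ofBits`. -/
alias bitz_ofBits := Pool.Agent.Helper7.BQ.bitz_ofBits

/-- M6. Correctness of the primality test. -/
alias prime_of_primeB := Pool.Agent.Helper93.BQ.prime_of_primeB

/-- M7. Euler's criterion. -/
alias legB_iff := Pool.Agent.Helper2.BQ.legB_iff

/-- M8. Coordinates of a product. -/
alias co_mul := Pool.Agent.Helper74.BQ.co_mul

end Pool.Agent.Helper69.BQ
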