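import Mathlib
import Pool.Agent.Helper74.BQ.M9
import Pool.Agent.Helper57.BQ.M11

/-!
# Project BQ, block M2 (may use St.A, St.M)
-/

namespace Pool.Agent.Helper69.BQ

open Cert

/-- M9. The integer of a mask has the coordinates given by the mask. -/
alias co_valM := Pool.Agent.Helper74.BQ.co_valM

/-- M10. -/
alias supp_valM := Pool.Agent.Helper74.BQ.supp_valM

/-- M11. A rational number supported on the list is determined by its coordinates up to squares
(from `eq_mul_sq`). -/
alias eq_of_co := Pool.Agent.Helper57.BQ.eq_of_co

end Pool.Agent.Helper69.BQ
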