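import Mathlib
import Pool.Agent.Helper69.BQ.M12
import Pool.Agent.Helper57.BQ.M11b

/-!
# Project BQ, block M3 (may use St.A, St.M, St.M2)
-/

namespace Pool.Agent.Helper69.BQ

open Cert

/-- M12. The functional `xx p` on the rational numbers supported on the list. -/
alias xx_eq_dot := Pool.Agent.Helper69.BQ.MTwelve.xx_eq_dot

/-- M13. `valM` turns `xor` into products, up to squares. -/
alias valM_xor := Pool.Agent.Helper57.BQ.valM_xor

end Pool.Agent.Helper69.BQ
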