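import Mathlib
import Pool.Agent.Helper69.BQ.S1

/-!
# Project BQ, block S: soundness of the checks (may use all blocks A-M)
-/

namespace Pool.Agent.Helper69.BQ

open Module NumberField Pool.Agent.Helper25.Biq Cert

/-! S1: what the first checks give -/

/-- S1a. -/
alias ok1_primes := Pool.Agent.Helper69.BQ.SOne.ok1_primes

/-- S1b. -/
alias ok1_arith := Pool.Agent.Helper69.BQ.SOne.ok1_arith

/-- S1c. The masks of the radicands. -/
alias valM_d := Pool.Agent.Helper69.BQ.SOne.valM_d

/-- S1d. Divisibility of the radicands by the `i`-th prime, in terms of masks. -/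
alias dvd_iff := Pool.Agent.Helper69.BQ.SOne.dvd_iff

end Pool.Agent.Helper69.BQ
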