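import Mathlib
import Pool.Agent.Helper30.BQ.E1
import Pool.Agent.Helper61.BQ.E6

/-!
# Project BQ, block E: generators from certificates, rational generators
(typed statements; proofs are supplied by the helper files)
-/

namespace Pool.Agent.Helper69.BQ

open Module NumberField Pool.Agent.Helper25.Biq

variable {K : Type} [Field K] [NumberField K] {g12 g13 g23 : ℤ}

/-- E1. Multiplication in coordinates. -/
alias ev_mul := Pool.Agent.Helper30.BQ.ev_mul

/-- E2. The automorphisms in coordinates. -/
alias ev_aut := Pool.Agent.Helper30.BQ.ev_aut

/-- E3. The coordinates give algebraic integers. -/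
alias ev_int := Pool.Agent.Helper30.BQ.ev_int

/-- E4. If `a a' = m²` and `x a + y a' = 1`, then `(a) = (a, m)²`. -/
alias sq_ideal := Pool.Agent.Helper30.BQ.sq_ideal

/-- E6. A prime dividing `g12 g13 g23` (in particular 2) generates the square of an ideal. For `p`
dividing `g12` or `g13` use `(p, s1)`, for `p` dividing `g23` use `(p, s2)`. -/
alias prime_sel := Pool.Agent.Helper61.BQ.prime_sel

end Pool.Agent.Helper69.BQ
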