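import Mathlib
import Pool.Agent.Helper96.BQ.E5
import Pool.Agent.Helper90.BQ.E7

/-!
# Project BQ, block E2 (may use St.A, St.B, St.E)
-/

namespace Pool.Agent.Helper69.BQ

open Module NumberField Pool.Agent.Helper25.Biq

variable {K : Type} [Field K] [NumberField K] {g12 g13 g23 : ℤ}

/-- E5 (from E1-E4 and `exists_TT`). -/
alias gen_exists := Pool.Agent.Helper96.BQ.gen_exists

/-- E7 (from E6). The rational classes supported on ramified primes. -/
alias rat_exists := Pool.Agent.Helper90.BQ.rat_exists

end Pool.Agent.Helper69.BQ
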