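import Mathlib
import Pool.Agent.Helper59.BQ.D1
import Pool.Agent.Helper41.BQ.D2
import Pool.Agent.Helper67.BQ.D3

/-!
# Project BQ, block D: direct summands of the 2-torsion of the class group
(typed statements; proofs are supplied by the helper files)
-/

namespace Pool.Agent.Helper69.BQ

open Module NumberField Pool.Agent.Helper25.Biq

variable {K : Type} [Field K] [NumberField K] [IsGalois ℚ K] {g12 g13 g23 : ℤ}

/-- D1. A representation with equivariant maps `i : V → Cl(K)[2]`, `π : Cl(K)[2] → V` such that
`π ∘ i` is injective arises (the complement is the kernel of `π`). -/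
alias arises_of_maps := Pool.Agent.Helper59.BQ.arises_of_maps

/-- D2. The isomorphism of `C₂ × C₂` with the Galois group given by `σ` and `τ`. -/
alias exists_phi := Pool.Agent.Helper41.BQ.exists_phi

/-- D3. Extension of a functional from the rational classes to `Cl(K)[2]`. -/
alias exists_psi := Pool.Agent.Helper67.BQ.exists_psi

/-- D5. -/
alias arises_iso := Pool.Agent.Helper41.BQ.arises_iso

/-- D6. -/
alias arises_twist := Pool.Agent.Helper41.BQ.arises_twist

end Pool.Agent.Helper69.BQ
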