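import Mathlib
import Pool.Agent.Helper39.BQ.C3
import Pool.Agent.Helper28.BQ.C6
import Pool.Agent.Helper87.BQ.C7

/-!
# Project BQ, block C2 (may use St.A, St.B, St.B2, St.C)
-/

namespace Pool.Agent.Helper69.BQ

open Module NumberField Pool.Agent.Helper25.Biq

variable {K : Type} [Field K] [NumberField K] [IsGalois ℚ K] {g12 g13 g23 : ℤ}

/-- C3. The structure theorem for the norms (from C1, C2, `sel_of_norm`, `supp_Sel`, `leg_core`;
the second and third subfield via `Dat.rot`, `Dat.swap`). -/
alias norms_elt := Pool.Agent.Helper39.BQ.norms_elt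

/-- C4 (from C3, `exists_rep`, `toQ_eq`, `toQ_act`). -/
alias norms_TT := Pool.Agent.Helper39.BQ.norms_TT

/-- C6 (from C5 for the three subfields, and `rat_sqrt`). The rational numbers that are units
times squares. -/
alias rat_unit := Pool.Agent.Helper28.BQ.rat_unit

/-- C7 (from C5, `rank_quad_of_real`, `exists_good`). The relation given by the fundamental unit of
the fixed field of `σ`. -/
alias exists_rel := Pool.Agent.Helper87.BQ.exists_rel

end Pool.Agent.Helper69.BQ
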