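import Mathlib
import Pool.Agent.Helper26.BQ.D4

/-!
# Project BQ, block D2 (may use St.D)
-/

namespace Pool.Agent.Helper69.BQ

open Module NumberField Pool.Agent.Helper25.Biq

variable {K : Type} [Field K] [NumberField K] [IsGalois ℚ K] {g12 g13 g23 : ℤ}

/-- D4 (from D1, D2, D3, `norm_rel`). The criterion for a summand. -/
alias main_sem := Pool.Agent.Helper26.BQ.main_sem

end Pool.Agent.Helper69.BQ
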