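import Mathlib
import Pool.Agent.Helper12.BQ.B1
import Pool.Agent.Helper52.BQ.B2
import Pool.Agent.Helper50.BQ.B5
import Pool.Agent.Helper81.BQ.B9
import Pool.Agent.Helper82.BQ.B10
import Pool.Agent.Helper85.BQ.B12

/-!
# Project BQ, block B: norm forms over `ℚ`, and the algebra of the biquadratic field
(typed statements; proofs are supplied by the helper files)
-/

namespace Pool.Agent.Helper69.BQ

open Module NumberField Pool.Agent.Helper25.Biq

section rational

variable {p : ℕ}

/-- B1. The norm residue symbol at a prime that divides the radicand exactly once. -/
alias nm_ram := Pool.Agent.Helper12.BQ.nm_ram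

/-- B2. The norm residue symbol at an odd prime that does not divide the radicand. -/
alias nm_unram := Pool.Agent.Helper52.BQ.nm_unram

end rational

section field

variable {K : Type} [Field K] [NumberField K] [IsGalois ℚ K] {g12 g13 g23 : ℤ}

/-- B5. The elements fixed by `σ`. -/
alias fix_form := Pool.Agent.Helper50.BQ.fix_form

/-- B7. Square roots of rational numbers. -/
alias rat_sqrt := Pool.Agent.Helper50.BQ.rat_sqrt

/-- B8. Hilbert 90: an element of the fixed field of `σ` whose norm is the square of a rational
number is the product of a rational number and a square. -/
alias h90 := Pool.Agent.Helper50.BQ.h90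

/-- B9. A rational number which is the square of an ideal of the fixed field of `σ` is supported on
the primes that divide `2 g12 g13`. (Use `exists_sq_ideal`, `exists_sq_ideal_prime`,
`dvd_radicand'` of `Pool.Agent.Helper25.Ram`, with the squarefree part of `c`.) -/
alias supp_Sel := Pool.Agent.Helper81.BQ.supp_Sel

/-- B10. If `I² = (a)` and `a σ(a) = c γ²` with `c` rational and `γ` fixed by `σ`, then `c`
generates the square of an ideal in the fixed field of `σ`. (Use `Algebra.intNorm`, as in
`norm_mem_B`.) -/
alias sel_of_norm := Pool.Agent.Helper82.BQ.sel_of_norm

/-- B11. Surjectivity of the embedding of `Cl(K)[2]` onto the classes of elements which generate the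
square of an ideal. -/
alias exists_TT := Pool.Agent.Helper82.BQ.exists_TT

/-- B12. There are such fields. (For instance the intermediate field of `ℝ / ℚ` generated by two
square roots.) -/
alias exists_Dat := Pool.Agent.Helper85.BQ.exists_Dat

end field

end Pool.Agent.Helper69.BQ
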