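import Mathlib
import Pool.Agent.Helper71.BQ.B3

/-!
# Project BQ, block B2 (may use St.A, St.B)
-/

namespace Pool.Agent.Helper69.BQ

open Module NumberField Pool.Agent.Helper25.Biq

section rational

variable {p : ℕ}

/-- B3 (from B1, B2 and block A). The Legendre condition at a prime dividing `d1` and `d2`
exactly once. -/
alias leg_core := Pool.Agent.Helper71.BQ.leg_core

/-- B4 (from B1 and block A). -/
alias neg_sq_not_nm := Pool.Agent.Helper71.BQ.neg_sq_not_nm

end rational

section field

variable {K : Type} [Field K] [NumberField K] [IsGalois ℚ K] {g12 g13 g23 : ℤ}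

/-- B6 (from B5). The norm of an element fixed by `σ` is a value of the norm form. -/
alias norm_isNm := Pool.Agent.Helper71.BQ.norm_isNm

end field

end Pool.Agent.Helper69.BQ
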