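import Mathlib
import Pool.Agent.Helper43.BQ.C1
import Pool.Agent.Helper75.BQ.C2
import Pool.Agent.Helper8.BQ.C5

/-!
# Project BQ, block C: norms of the elements whose ideal is a square; units (may use St.A, St.B, St.B2)
-/

namespace Pool.Agent.Helper69.BQ

open Module NumberField Pool.Agent.Helper25.Biq

variable {K : Type} [Field K] [NumberField K] [IsGalois ℚ K] {g12 g13 g23 : ℤ}

/-- C1. The norm to `ℚ` is a positive square (the proof of `norm_rel` gives `± n²`; the sign is
excluded by `norm_isNm`, `neg_sq_not_nm` and `Arith.n1`). -/
alias norm_pos := Pool.Agent.Helper43.BQ.norm_pos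

/-- C2. Pure algebra in `K` (uses `h90` three times, via `Dat.rot`, and `rat_sqrt`): an element
`A` of norm `n²` is, up to a rational factor, a product of elements of the three quadratic
subfields. `g1, g2, g3` are the norms of `γ1, γ2, γ3`. -/
alias split := Pool.Agent.Helper75.BQ.split

/-- C5. A unit of `K` fixed by `σ` has norm one to `ℚ` (the sign is excluded by `neg_sq_not_nm`)
and is an admissible rational number times a square. -/
alias unit_fix := Pool.Agent.Helper8.BQ.unit_fix

end Pool.Agent.Helper69.BQ
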