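import Mathlib
import Pool.Agent.Helper65.BQ.S2
import Pool.Agent.Helper33.BQ.S3
import Pool.Agent.Helper64.BQ.OkK

/-!
# Project BQ, block S2 (may use all blocks A-M and S)
-/

namespace Pool.Agent.Helper69.BQ

open Module NumberField Pool.Agent.Helper25.Biq Cert

/-! S2: the conditions `Adm` -/

/-- S2 (from M12, M9; `d` is one of the three radicands, see S1c, S1d). An admissible number
satisfies the listed conditions, up to sign. -/
alias adm_consK := Pool.Agent.Helper65.BQ.adm_consK

/-- S3 (from M12, M9, S1). The conditions `Trip`. -/
alias trip_consP := Pool.Agent.Helper33.BQ.trip_consP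

/-- S4 (from `dot_xorSel`, `dot_xor`, `co_valM`, `eq_of_co`, `co_mul`). The solutions of the
conditions. -/
alias okK_sound := Pool.Agent.Helper64.BQ.okK_sound

end Pool.Agent.Helper69.BQ
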