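import Mathlib
import Pool.Agent.Helper83.BQ.S5
import Pool.Agent.Helper77.BQ.S6
import Pool.Agent.Helper35.BQ.S7
import Pool.Agent.Helper25.BQ.S8
import Pool.Agent.Helper25.BQ.S9

/-!
# Project BQ, block S3 (may use all blocks A-M, S, S2)
-/

namespace Pool.Agent.Helper69.BQ

open Module NumberField Pool.Agent.Helper25.Biq Cert

variable {K : Type} [Field K] [NumberField K] [IsGalois ℚ K]

/-- S5 (from S1-S4 and `exists_rel` for `D`, `D.rot`, `D.rot.rot`). The relations. -/
alias rel_mem := Pool.Agent.Helper83.BQ.rel_mem

/-- S6 (from S1, S2, `rat_unit`). The functionals vanish on the units. -/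
alias psiF_unit := Pool.Agent.Helper77.BQ.psiF_unit

/-- S7 (from S3, M2, M3). The upper bound. -/
alias upper := Pool.Agent.Helper35.BQ.upper

/-- S8 (from M13). The relations in the submodule. -/
alias rel_sound := Pool.Agent.Helper25.BQ.rel_sound

/-- S9 (from M4, M9). The dual family. -/
alias psi_dual := Pool.Agent.Helper25.BQ.psi_dual

/-- S10 (from M4). The left inverse. -/
alias left_inv := Pool.Agent.Helper25.BQ.left_inv

/-- S11 (from E5). The generators. -/
alias gens_exist := Pool.Agent.Helper25.BQ.gens_exist

end Pool.Agent.Helper69.BQ
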