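import Mathlib
import Pool.Agent.Helper69.BQ.St.S3
import Pool.Agent.Helper69.BQ.St.D2

/-!
# Soundness of the certificate (project BQ, assembly)
-/

namespace Pool.Agent.Helper69.BQ

open Module NumberField Pool.Agent.Helper25.Biq Cert

lemma co_zero_eq (ps : List ℕ) (c : ℚ) : co ps c 0 = if c < 0 then 1 else 0 := rfl

lemma psiF_mul {c : Cert} (h1 : c.ok1 = true) {a b : ℚ} (ha : a ≠ 0) (hb : b ≠ 0) :
    psiF c (a * b) = psiF c a + psiF c b := by
  funext j
  rw [Pi.add_apply, psiF, psiF, psiF, dot, dot, dot, ← Finset.sum_add_distrib]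
  apply Finset.sum_congr rfl
  intro i hi
  rw [co_mul (fun p hp => ((ok1_primes h1).1 p hp).1) ha hb i (Finset.mem_range.1 hi), mul_add]

/-- **Soundness.** A certificate that passes the check proves that the representation arises. -/
theorem Cert.sound (c : Cert) (h : c.ok = true) :
    Arises (kroRep (mat c.m c.n c.A) (mat c.m c.n c.B)) := by
  simp only [Cert.ok, Bool.and_eq_true] at h
  obtain ⟨⟨⟨⟨⟨⟨⟨⟨⟨h1, h2⟩, h3⟩, h4⟩, h5⟩, h6⟩, h7⟩, h8⟩, h9⟩, h10⟩ := h
  obtain ⟨hA, h4', h2'⟩ := ok1_arith h1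
  obtain ⟨K, _, _, _, ⟨D⟩⟩ := exists_Dat hA
  have hps := (ok1_primes h1).1
  have hval : ∀ m, ((valM c.ps m : ℤ) : ℚ) ≠ 0 := fun m =>
    (supp_valM (fun p hp => ⟨(hps p hp).1, (hps p hp).2.1⟩) m).1
  choose t ht1 ht2 using fun j => gens_exist D h1 h10 j
  have hw : ∀ k : Fin c.n, ∃ t : TT K,
      toQ t = (UCl K).mkQ (sc (algebraMap ℚ K (valM c.ps (gt c.f k) : ℤ))) ∧
      ∀ g : K ≃ₐ[ℚ] K, act g t = t := by
    intro k
    apply rat_exists D hA (hval _)
    intro p hp hpd
    apply (supp_valM (fun p hp => ⟨(hps p hp).1, (hps p hp).2.1⟩) _).2 p hp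
    · rintro rfl
      apply hpd
      exact (Dvd.dvd.mul_left (by exact_mod_cast h2') _)
    · intro hmem
      apply hpd
      obtain ⟨i, hi, hpi⟩ := List.getElem_of_mem hmem
      have hgt : gt c.ps i = p := by
        rw [gt, List.getD_eq_getElem _ _ hi, hpi]
      obtain ⟨e1, e2, e3⟩ := dvd_iff h1 hi
      rw [hgt] at e1 e2 e3
      have hcase : c.m12.testBit (i + 2) = true ∨ c.m13.testBit (i + 2) = true ∨
          c.m23.testBit (i + 2) = true := by
        have hp' : p ∈ c.P12 ++ (c.P13 ++ c.P23) := hmem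
        rw [List.mem_append, List.mem_append] at hp'
        rcases hp' with hp' | hp' | hp'
        · left; rw [← e1, g12]
          exact_mod_cast List.dvd_prod hp'
        · right; left; rw [← e2, g13]
          exact_mod_cast List.dvd_prod hp'
        · right; right; rw [← e3, g23]
          exact_mod_cast (List.dvd_prod hp').mul_left 2
      rcases hcase with hc | hc | hc
      · exact ((e1.2 hc).mul_right _).mul_right _
      · exact ((e2.2 hc).mul_left _).mul_right _
      · exact (e3.2 hc).mul_left _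
  choose w hw1 hw2 using hw
  refine main_sem D (mat c.m c.n c.A) (mat c.m c.n c.B) (psiF c)
    (fun a b ha hb => psiF_mul h1 ha hb) (fun f hf hu => psiF_unit D h1 h2 h3 h5 hf hu)
    (matR c.m c.n c.L1) (matR c.m c.n c.L2) ?_ t
    (fun j => (valM c.ps (gt c.c1 j) : ℤ)) (fun j => (valM c.ps (gt c.c2 j) : ℤ))
    (fun j => hval _) (fun j => hval _) ht1 ht2 (fun k => (valM c.ps (gt c.f k) : ℤ))
    (fun k => hval _) w hw1 (fun g k => hw2 k g) (fun k => psi_dual h1 h7 k)
    (fun j => (rel_sound h1 (rel_mem D h1 h2 h3 h4) h7 h8 j).1)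
    (fun j => (rel_sound h1 (rel_mem D h1 h2 h3 h4) h7 h8 j).2)
    (fun j => left_inv h9 j)
  intro x
  obtain ⟨c1, c2, c3, ht, e1, e2⟩ := norms_TT D hA x
  obtain ⟨u1, u2⟩ := upper h1 h2 h3 h6 h7 ht
  exact ⟨c1, c2, ht.ne1, ht.ne2, e1, e2, u1, u2⟩

end Pool.Agent.Helper69.BQ
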